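import Pool.Agent.Lib.MP_25f4f2_al.Defs
import Pool.Agent.Lib.MP_25f4f2_al.Low

open Pool.Agent.Lib.MP_25f4f2_al

/-- For `n ≥ 4` the eigenvalues of the strict GKK matrices of order `n` fill exactly the open wedge
`|arg μ| < π - π / (n - 2)`, `μ ≠ 0`; real matrices suffice. -/
theorem Pool.Agent.Results.MP_25f4f2_al.SharpWedge.result (n : ℕ) (hn : 4 ≤ n) (μ : ℂ) :
    List.TFAE [∃ A : Matrix (Fin n) (Fin n) ℂ, IsStrictGKK A ∧ μ ∈ spectrum ℂ A,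
      ∃ A : Matrix (Fin n) (Fin n) ℂ, (∀ i j, (A i j).im = 0) ∧ IsStrictGKK A ∧ μ ∈ spectrum ℂ A,
      μ ≠ 0 ∧ |Complex.arg μ| < Real.pi - Real.pi / ((n : ℝ) - 2)] := by
  tfae_have 1 → 3 := fun ⟨_, h, hμ⟩ => h.wedge hn hμ
  tfae_have 3 → 2 := fun h => exists_of_wedge hn h.1 h.2
  tfae_have 2 → 1 := fun ⟨A, _, h⟩ => ⟨A, h⟩
  tfae_finish

/-- The negated form of Q1, in every order `n ≥ 5`, derived from `result`. -/
theorem Pool.Agent.Results.MP_25f4f2_al.SharpWedge.unstable (n : ℕ) (hn : 5 ≤ n) :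
    ∃ A : Matrix (Fin n) (Fin n) ℂ, IsStrictGKK A ∧ ∃ μ ∈ spectrum ℂ A, μ.re < 0 := by
  have p := Real.pi_pos
  have n5 : (5 : ℝ) ≤ n := by exact_mod_cast hn
  have h1 : Real.pi / ((n : ℝ) - 2) ≤ Real.pi / 3 :=
    div_le_div_of_nonneg_left p.le (by norm_num) (by linarith)
  obtain ⟨θ, a1, a2⟩ : ∃ θ : ℝ, Real.pi / 2 < θ ∧ θ < Real.pi - Real.pi / 3 :=
    ⟨7 / 12 * Real.pi, by linarith, by linarith⟩
  have h2 : (Complex.exp (θ * Complex.I)).arg = θ := by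
    rw [Complex.exp_mul_I]
    exact Complex.arg_cos_add_sin_mul_I ⟨by linarith, by linarith⟩
  have h3 : Complex.exp (θ * Complex.I) ≠ 0 ∧
      |Complex.arg (Complex.exp (θ * Complex.I))| < Real.pi - Real.pi / ((n : ℝ) - 2) :=
    ⟨Complex.exp_ne_zero _, by rw [h2, abs_of_pos (by linarith)]; linarith⟩
  obtain ⟨A, h, hμ⟩ : ∃ A : Matrix (Fin n) (Fin n) ℂ, IsStrictGKK A ∧
      Complex.exp (θ * Complex.I) ∈ spectrum ℂ A :=
    ((result n (by omega) (Complex.exp (θ * Complex.I))).out 0 2).2 h3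
  refine ⟨A, h, _, hμ, ?_⟩
  rw [Complex.exp_ofReal_mul_I_re]
  exact Real.cos_neg_of_pi_div_two_lt_of_lt a1 (by linarith)
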