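import Mathlib

/-!
# An unstable strict GKK tau-matrix

We exhibit a real square matrix which is a strict GKK matrix and a tau-matrix and which has an
eigenvalue of negative real part.
-/

namespace Pool.Agent.Results.MP_25f4f2_al.UnstableStrictGKKTau

open Matrix

/-- The submatrix `A(α, β)` with rows indexed by `α` and columns indexed by `β`, both in
increasing order; `k` is the common cardinality of `α` and `β`. -/
def subm {n k : ℕ} (A : Matrix (Fin n) (Fin n) ℂ) (α β : Finset (Fin n))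
    (hα : α.card = k) (hβ : β.card = k) : Matrix (Fin k) (Fin k) ℂ :=
  A.submatrix (α.orderEmbOfFin hα) (β.orderEmbOfFin hβ)

/-- The principal submatrix `A(α) = A(α, α)`. -/
def psub {n : ℕ} (A : Matrix (Fin n) (Fin n) ℂ) (α : Finset (Fin n)) :
    Matrix (Fin α.card) (Fin α.card) ℂ :=
  subm A α α rfl rfl

/-- The complex number `z` is real and strictly positive. -/
def PosReal (z : ℂ) : Prop := z.im = 0 ∧ 0 < z.re

/-- P-matrix: every principal minor is real and positive. -/
def IsPMatrix {n : ℕ} (A : Matrix (Fin n) (Fin n) ℂ) : Prop :=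
  ∀ α : Finset (Fin n), PosReal (psub A α).det

/-- Strict GKK matrix: a P-matrix with `A[α,β] A[β,α] > 0` for every minor of dispersal `1`. -/
def IsStrictGKK {n : ℕ} (A : Matrix (Fin n) (Fin n) ℂ) : Prop :=
  IsPMatrix A ∧ ∀ (α β : Finset (Fin n)) (h : β.card = α.card), α.card - (α ∩ β).card = 1 →
    PosReal ((subm A α β rfl h).det * (subm A β α h rfl).det)

/-- `l(B)`: the least real eigenvalue of `B`, and `+∞` if `B` has no real eigenvalue. -/
noncomputable def leastRealEig {k : ℕ} (B : Matrix (Fin k) (Fin k) ℂ) : EReal :=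
  sInf {y : EReal | ∃ x : ℝ, (x : ℂ) ∈ spectrum ℂ B ∧ y = (x : EReal)}

/-- tau-matrix: `l(A(α)) ≤ l(A(β)) < ∞` whenever `∅ ≠ β ⊆ α`, and `l(A) ≥ 0`. -/
def IsTau {n : ℕ} (A : Matrix (Fin n) (Fin n) ℂ) : Prop :=
  (∀ α β : Finset (Fin n), β.Nonempty → β ⊆ α →
    leastRealEig (psub A α) ≤ leastRealEig (psub A β) ∧ leastRealEig (psub A β) < ⊤) ∧
  0 ≤ leastRealEig A

/-! ### A computable determinant -/

/-- Laplace expansion along the first row, for the leading `k × k` block. -/
def ldet : ℕ → (ℕ → ℕ → ℚ) → ℚ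
  | 0, _ => 1
  | k + 1, M => ∑ j ∈ Finset.range (k + 1),
      (-1) ^ j * M 0 j * ldet k (fun a b => M (a + 1) (if b < j then b else b + 1))

theorem ldet_eq (k : ℕ) : ∀ M : ℕ → ℕ → ℚ,
    ldet k M = (Matrix.of fun (i j : Fin k) => M i j).det := by
  induction k with
  | zero => intro M; simp [ldet]
  | succ k ih =>
    intro M
    rw [det_succ_row_zero, ldet, Finset.sum_range]
    refine Finset.sum_congr rfl fun j _ => ?_
    rw [ih]
    congr 2
    ext a b
    simp only [of_apply, submatrix_apply, Fin.val_succ]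
    congr 1
    by_cases h : (b : ℕ) < j
    · rw [if_pos h, Fin.succAbove_of_castSucc_lt _ _ (by simpa [Fin.lt_def] using h)]
      simp
    · rw [if_neg h, Fin.succAbove_of_le_castSucc _ _ (by simpa [Fin.le_def] using h)]
      simp

/-! ### The matrix -/

/-- The entries of the example. -/
def A0 : Matrix (Fin 5) (Fin 5) ℚ :=
  !![51/50, 1/10, 1/100, 1/1000, 10000001/10000000;
     1, 51/50, 1/10, 1/100, 10000001/10000000;
     1, 1, 51/50, 1/10, 10000001/10000000;
     1, 1, 1, 51/50, 10000001/10000000;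
     100, 100, 100, 100, 100]

/-- The example as a complex matrix. -/
def AC : Matrix (Fin 5) (Fin 5) ℂ := A0.map (fun q => (q : ℂ))

/-- The elements of `α` in increasing order. -/
def lst (α : Finset (Fin 5)) : List (Fin 5) := (List.finRange 5).filter (fun i => i ∈ α)

theorem sort_eq_lst (α : Finset (Fin 5)) : α.sort = lst α := by
  apply List.Perm.eq_of_pairwise (le := (· ≤ ·)) (fun a b _ _ h1 h2 => le_antisymm h1 h2)
  · exact Finset.pairwise_sort α _
  · exact List.Pairwise.filter _ (by decide)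
  · apply (List.perm_ext_iff_of_nodup (Finset.sort_nodup α _) ?_).2
    · intro a; simp [lst]
    · exact List.Nodup.filter _ (List.nodup_finRange 5)

/-- The `i`-th element of `α`. -/
def nth (α : Finset (Fin 5)) (i : ℕ) : Fin 5 := (lst α).getD i 0

theorem emb_eq {k : ℕ} (α : Finset (Fin 5)) (h : α.card = k) (i : Fin k) :
    α.orderEmbOfFin h i = nth α i := by
  rw [Finset.orderEmbOfFin_apply, nth, ← sort_eq_lst]
  have : (i : ℕ) < α.sort.length := by rw [Finset.length_sort, h]; exact i.2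
  rw [List.getD_eq_getElem?_getD, List.getElem?_eq_getElem this]
  rfl

/-- The rational submatrix, with natural number indices. -/
def sq (α β : Finset (Fin 5)) : ℕ → ℕ → ℚ := fun i j => A0 (nth α i) (nth β j)

theorem subm_eq {k : ℕ} (α β : Finset (Fin 5)) (hα : α.card = k) (hβ : β.card = k) :
    subm AC α β hα hβ =
      (Matrix.of fun (i j : Fin k) => sq α β i j).map (fun q : ℚ => (q : ℂ)) := by
  ext i j
  simp [subm, AC, sq, emb_eq]

theorem det_subm {k : ℕ} (α β : Finset (Fin 5)) (hα : α.card = k) (hβ : β.card = k) :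
    (subm AC α β hα hβ).det = ((ldet k (sq α β) : ℚ) : ℂ) := by
  rw [subm_eq, ldet_eq]
  exact ((Rat.castHom ℂ).map_det _).symm

theorem posReal_cast {q : ℚ} (h : 0 < q) : PosReal (q : ℂ) := by
  constructor
  · simp
  · simpa using h

theorem check_P : ∀ α : Finset (Fin 5), 0 < ldet α.card (sq α α) := by
  decide +kernel

theorem check_GKK : ∀ α β : Finset (Fin 5), β.card = α.card → α.card - (α ∩ β).card = 1 →
    0 < ldet α.card (sq α β) * ldet α.card (sq β α) := by
  decide +kernel

theorem isStrictGKK : IsStrictGKK AC := by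
  refine ⟨fun α => ?_, fun α β h h1 => ?_⟩
  · rw [psub, det_subm]; exact posReal_cast (check_P α)
  · rw [det_subm, det_subm, ← Rat.cast_mul]; exact posReal_cast (check_GKK α β h h1)

/-! ### Real eigenvalues of the principal submatrices -/

/-- The real principal submatrix. -/
def rsub (α : Finset (Fin 5)) : Matrix (Fin α.card) (Fin α.card) ℝ :=
  (Matrix.of fun (i j : Fin α.card) => sq α α i j).map (fun q : ℚ => (q : ℝ))

/-- `det (A(α) - x I)`. -/
noncomputable def chi (α : Finset (Fin 5)) (x : ℝ) : ℝ := (rsub α - x • 1).det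

theorem chi_cont (α : Finset (Fin 5)) : Continuous (chi α) := by
  unfold chi
  exact Continuous.matrix_det (by fun_prop)

theorem mem_spec (α : Finset (Fin 5)) (x : ℝ) :
    (x : ℂ) ∈ spectrum ℂ (psub AC α) ↔ chi α x = 0 := by
  rw [Matrix.mem_spectrum_iff_isRoot_charpoly, Polynomial.IsRoot, Matrix.eval_charpoly]
  have h1 : Matrix.scalar (Fin α.card) (x : ℂ) - psub AC α =
      -((rsub α - x • 1).map (fun r : ℝ => (r : ℂ))) := by
    rw [psub, subm_eq]
    ext i j
    by_cases h : i = j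
    · subst h; simp [rsub]
    · simp [rsub, h]
  have h2 : ((rsub α - x • 1).map (fun r : ℝ => (r : ℂ))).det = ((chi α x : ℝ) : ℂ) :=
    (Complex.ofRealHom.map_det _).symm
  rw [h1, det_neg, h2]
  simp

/-- The shifted matrix in which the rows outside `s` are replaced by unit rows. -/
def pad (α : Finset (Fin 5)) (r : ℚ) (s : ℕ → Bool) : ℕ → ℕ → ℚ := fun i j =>
  if s i then sq α α i j - (if i = j then r else 0) else (if i = j then 1 else 0)

theorem chi_rat (α : Finset (Fin 5)) (r : ℚ) :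
    chi α r = ((ldet α.card (pad α r fun _ => true) : ℚ) : ℝ) := by
  rw [ldet_eq, chi]
  refine Eq.trans ?_ ((Rat.castHom ℝ).map_det _).symm
  congr 1
  ext i j
  by_cases h : i = j
  · subst h; simp [rsub, pad]
  · have : (i : ℕ) ≠ j := fun e => h (Fin.ext e)
    simp [rsub, pad, h, this]

theorem det_add_pos {k : ℕ} (M : Matrix (Fin k) (Fin k) ℝ)
    (h : ∀ s : Finset (Fin k), 0 < Matrix.det (s.piecewise M (1 : Matrix (Fin k) (Fin k) ℝ)))
    {y : ℝ} (hy : 0 ≤ y) : 0 < (M + y • 1).det := by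
  have key : (M + y • (1 : Matrix (Fin k) (Fin k) ℝ)).det =
      ∑ s : Finset (Fin k), Matrix.det (s.piecewise M (y • (1 : Matrix (Fin k) (Fin k) ℝ))) :=
    (detRowAlternating : (Fin k → ℝ) [⋀^Fin k]→ₗ[ℝ] ℝ).map_add_univ M
      (y • (1 : Matrix (Fin k) (Fin k) ℝ))
  have each : ∀ s : Finset (Fin k),
      Matrix.det (s.piecewise M (y • (1 : Matrix (Fin k) (Fin k) ℝ))) =
        (∏ _i ∈ sᶜ, y) * Matrix.det (s.piecewise M (1 : Matrix (Fin k) (Fin k) ℝ)) := by
    intro s
    have := (detRowAlternating : (Fin k → ℝ) [⋀^Fin k]→ₗ[ℝ] ℝ).toMultilinearMap.map_piecewise_smul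
      (fun _ => y) (s.piecewise M (1 : Matrix (Fin k) (Fin k) ℝ)) sᶜ
    refine Eq.trans ?_ this
    show Matrix.det _ = Matrix.det _
    congr 1
    ext i j
    by_cases hi : i ∈ s <;> simp [Finset.piecewise, hi]
  rw [key]
  apply Finset.sum_pos'
  · intro s _
    rw [each]
    exact mul_nonneg (Finset.prod_nonneg fun _ _ => hy) (h s).le
  · refine ⟨Finset.univ, Finset.mem_univ _, ?_⟩
    rw [each]
    simpa using h Finset.univ

/-- The bit mask of a subset. -/
def mask (α : Finset (Fin 5)) : ℕ := ∑ i ∈ α, 2 ^ (i : ℕ)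

/-- Upper bounds for the least real eigenvalues. -/
def up (α : Finset (Fin 5)) : ℚ :=
  ([0, 11/10, 11/10, 71/100, 11/10, 93/100, 71/100, 63/100, 11/10, 99/100, 93/100, 7/10, 71/100,
    7/10, 63/100, 59/100, 110/1, 1/50, 1/50, 11/1000, 1/50, 1/100, 11/1000, 81/100000, 1/50, 1/100,
    1/100, 3/4000, 11/1000, 3/4000, 81/100000, 1/100000] : List ℚ).getD (mask α) 0

/-- Lower bounds for the least real eigenvalues. -/
def lo (α : Finset (Fin 5)) : ℚ :=
  ([0, 1/1, 1/1, 7/10, 1/1, 91/100, 7/10, 61/100, 1/1, 49/50, 91/100, 69/100, 7/10, 69/100, 61/100,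
    29/50, 90/1, 19/1000, 19/1000, 1/100, 19/1000, 99/10000, 1/100, 1/1250, 19/1000, 99/10000,
    99/10000, 37/50000, 1/100, 37/50000, 1/1250, 99/10000000] : List ℚ).getD (mask α) 0

theorem check_up : ∀ α : Finset (Fin 5), α.card ≠ 0 →
    ldet α.card (pad α (up α) fun _ => true) < 0 := by
  decide +kernel

theorem check_lo : ∀ α s : Finset (Fin 5), (∀ t ∈ s, (t : ℕ) < α.card) →
    0 < ldet α.card (pad α (lo α) fun i => decide (∃ t ∈ s, (t : ℕ) = i)) := by
  decide +kernel

theorem check_lo_nonneg : ∀ α : Finset (Fin 5), 0 ≤ lo α ∧ lo α ≤ up α := by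
  decide +kernel

theorem check_mono : ∀ α β : Finset (Fin 5), β.card ≠ 0 → β ⊆ α → β ≠ α → up α ≤ lo β := by
  decide +kernel

theorem chi_pos (α : Finset (Fin 5)) {x : ℝ} (hx : x ≤ lo α) : 0 < chi α x := by
  have hk : α.card ≤ 5 := by simpa using α.card_le_univ
  have h := det_add_pos (rsub α - (lo α : ℝ) • 1) (y := lo α - x) ?_ (by linarith)
  · have e : rsub α - (lo α : ℝ) • 1 + ((lo α : ℝ) - x) • 1 = rsub α - x • 1 := by
      rw [sub_smul]; abel
    rwa [e] at h
  · intro s
    have hc := check_lo α (s.map (Fin.castLEEmb hk)) (by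
      intro t ht
      obtain ⟨u, _, rfl⟩ := Finset.mem_map.1 ht
      simp)
    rw [ldet_eq] at hc
    have hc' : (0 : ℝ) < (((Matrix.of fun (i j : Fin α.card) => pad α (lo α)
        (fun i => decide (∃ t ∈ s.map (Fin.castLEEmb hk), (t : ℕ) = i)) i j).det : ℚ) : ℝ) := by
      exact_mod_cast hc
    refine lt_of_lt_of_eq hc' (((Rat.castHom ℝ).map_det _).trans ?_)
    congr 1
    ext i j
    have hi : (∃ t ∈ s.map (Fin.castLEEmb hk), (t : ℕ) = i) ↔ i ∈ s := by
      constructor
      · rintro ⟨t, ht, e⟩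
        obtain ⟨u, hu, rfl⟩ := Finset.mem_map.1 ht
        have : u = i := Fin.ext (by simpa using e)
        exact this ▸ hu
      · intro h
        exact ⟨_, Finset.mem_map_of_mem _ h, by simp⟩
    have hd : decide (∃ t ∈ s.map (Fin.castLEEmb hk), (t : ℕ) = i) = decide (i ∈ s) :=
      decide_eq_decide.2 hi
    simp only [RingHom.mapMatrix_apply, map_apply, of_apply, pad, hd]
    by_cases hs : i ∈ s
    · by_cases h : i = j
      · subst h; simp [rsub, Finset.piecewise, hs]
      · have : (i : ℕ) ≠ j := fun e => h (Fin.ext e)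
        simp [rsub, Finset.piecewise, hs, h, this]
    · by_cases h : i = j
      · subst h
        simp [Finset.piecewise, hs]
      · have : (i : ℕ) ≠ j := fun e => h (Fin.ext e)
        simp [Finset.piecewise, hs, h, this]

theorem exists_root (α : Finset (Fin 5)) {a b : ℝ} (hab : a ≤ b)
    (h : (0 < chi α a ∧ chi α b < 0) ∨ (chi α a < 0 ∧ 0 < chi α b)) :
    ∃ x, a ≤ x ∧ x ≤ b ∧ chi α x = 0 := by
  rcases h with h | h
  · obtain ⟨x, hx, e⟩ := intermediate_value_Icc' hab (chi_cont α).continuousOn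
      (show (0 : ℝ) ∈ Set.Icc (chi α b) (chi α a) from ⟨h.2.le, h.1.le⟩)
    exact ⟨x, hx.1, hx.2, e⟩
  · obtain ⟨x, hx, e⟩ := intermediate_value_Icc hab (chi_cont α).continuousOn
      (show (0 : ℝ) ∈ Set.Icc (chi α a) (chi α b) from ⟨h.1.le, h.2.le⟩)
    exact ⟨x, hx.1, hx.2, e⟩

theorem le_up (α : Finset (Fin 5)) (h : α.Nonempty) :
    leastRealEig (psub AC α) ≤ ((up α : ℝ) : EReal) := by
  have h1 : chi α (up α) < 0 := by
    rw [chi_rat]; exact_mod_cast check_up α (Finset.card_pos.2 h).ne'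
  have h2 : ((lo α : ℚ) : ℝ) ≤ up α := by exact_mod_cast (check_lo_nonneg α).2
  obtain ⟨x, _, hx, e⟩ := exists_root α h2 (Or.inl ⟨chi_pos α le_rfl, h1⟩)
  refine le_trans (sInf_le ⟨x, (mem_spec α x).2 e, rfl⟩) ?_
  exact_mod_cast hx

theorem lo_le (α : Finset (Fin 5)) : ((lo α : ℝ) : EReal) ≤ leastRealEig (psub AC α) := by
  refine le_sInf ?_
  rintro y ⟨x, hx, rfl⟩
  have := (mem_spec α x).1 hx
  by_contra hc
  have hc' : x < lo α := by exact_mod_cast not_le.1 hc
  exact (chi_pos α hc'.le).ne' this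

theorem spec_univ : spectrum ℂ (psub AC Finset.univ) = spectrum ℂ AC := by
  have h : psub AC Finset.univ = AC := by
    ext i j
    simp only [psub, subm, submatrix_apply, emb_eq]
    have e : ∀ i : Fin 5, nth Finset.univ i = i := by decide
    exact congrArg₂ AC (e i) (e j)
  exact congrArg (spectrum ℂ) h

theorem isTau : IsTau AC := by
  refine ⟨fun α β hβ hsub => ⟨?_, ?_⟩, ?_⟩
  · by_cases e : β = α
    · subst e; exact le_rfl
    · refine le_trans (le_up α (hβ.mono hsub)) (le_trans ?_ (lo_le β))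
      exact_mod_cast check_mono α β (Finset.card_pos.2 hβ).ne' hsub e
  · exact lt_of_le_of_lt (le_up β hβ) (EReal.coe_lt_top _)
  · have h := lo_le Finset.univ
    have e : leastRealEig (psub AC Finset.univ) = leastRealEig AC := by
      unfold leastRealEig
      rw [spec_univ]
    rw [e] at h
    refine le_trans ?_ h
    exact_mod_cast (check_lo_nonneg Finset.univ).1

/-! ### Instability -/

theorem check_signs :
    ldet (Finset.univ : Finset (Fin 5)).card (pad Finset.univ (17/100) fun _ => true) < 0 ∧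
    0 < ldet (Finset.univ : Finset (Fin 5)).card (pad Finset.univ (18/100) fun _ => true) ∧
    0 < ldet (Finset.univ : Finset (Fin 5)).card (pad Finset.univ (10394/100) fun _ => true) ∧
    ldet (Finset.univ : Finset (Fin 5)).card (pad Finset.univ (10395/100) fun _ => true) < 0 := by
  decide +kernel

theorem trace_AC : AC.trace = ((10408/100 : ℝ) : ℂ) := by
  simp [Matrix.trace, Fin.sum_univ_five, AC, A0]
  norm_num

theorem unstable : ∃ μ ∈ spectrum ℂ AC, μ.re < 0 := by
  obtain ⟨c1, c2, c3, c4⟩ := check_signs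
  obtain ⟨x, hx1, hx2, hx⟩ := exists_root Finset.univ (a := ((17/100 : ℚ) : ℝ))
    (b := ((18/100 : ℚ) : ℝ)) (by norm_num)
    (Or.inr ⟨by rw [chi_rat]; exact_mod_cast c1, by rw [chi_rat]; exact_mod_cast c2⟩)
  obtain ⟨z, hz1, hz2, hz⟩ := exists_root Finset.univ (a := ((10394/100 : ℚ) : ℝ))
    (b := ((10395/100 : ℚ) : ℝ)) (by norm_num)
    (Or.inl ⟨by rw [chi_rat]; exact_mod_cast c3, by rw [chi_rat]; exact_mod_cast c4⟩)
  push_cast at hx1 hx2 hz1 hz2
  have hp : AC.charpoly ≠ 0 := AC.charpoly_monic.ne_zero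
  have mem : ∀ μ : ℂ, μ ∈ AC.charpoly.roots ↔ μ ∈ spectrum ℂ AC := by
    intro μ
    rw [Polynomial.mem_roots hp, Matrix.mem_spectrum_iff_isRoot_charpoly]
  have hxr : (x : ℂ) ∈ AC.charpoly.roots := by
    rw [mem, ← spec_univ, mem_spec]; exact hx
  have hzr : (z : ℂ) ∈ AC.charpoly.roots := by
    rw [mem, ← spec_univ, mem_spec]; exact hz
  have hne : (z : ℂ) ≠ x := by
    intro e
    have : z = x := by exact_mod_cast e
    linarith
  obtain ⟨s, hs⟩ := Multiset.exists_cons_of_mem hxr
  have hzs : (z : ℂ) ∈ s := by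
    rw [hs, Multiset.mem_cons] at hzr
    exact hzr.resolve_left hne
  obtain ⟨t, ht⟩ := Multiset.exists_cons_of_mem hzs
  by_contra hcon
  push Not at hcon
  have hsum := Matrix.trace_eq_sum_roots_charpoly AC
  rw [trace_AC, hs, ht, Multiset.sum_cons, Multiset.sum_cons] at hsum
  have ht0 : 0 ≤ (t.map Complex.re).sum := by
    apply Multiset.sum_nonneg
    intro y hy
    obtain ⟨μ, hμ, rfl⟩ := Multiset.mem_map.1 hy
    apply hcon
    rw [← mem, hs, ht]
    exact Multiset.mem_cons_of_mem (Multiset.mem_cons_of_mem hμ)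
  have hre : t.sum.re = (t.map Complex.re).sum := map_multiset_sum Complex.reAddGroupHom t
  have := congrArg Complex.re hsum
  simp only [Complex.add_re, Complex.ofReal_re, hre] at this
  linarith

/-- There is a real strict GKK tau-matrix with an eigenvalue of negative real part. -/
theorem result : ∃ (n : ℕ) (A : Matrix (Fin n) (Fin n) ℂ),
    (∀ i j, (A i j).im = 0) ∧ IsStrictGKK A ∧ IsTau A ∧ ∃ μ ∈ spectrum ℂ A, μ.re < 0 :=
  ⟨5, AC, fun i j => by simp [AC], isStrictGKK, isTau, unstable⟩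

end Pool.Agent.Results.MP_25f4f2_al.UnstableStrictGKKTau
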